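import Mathlib

/-!
# Counting the points of `y ^ 2 - y = ∑ t_e a_e`
-/

set_option autoImplicit false

noncomputable section

namespace Pool.Agent.H854.Z

variable {F : Type} [Field F] [Finite F] {E V : Type} [Fintype E] [Finite V]

/-- The solutions `(y, t)` for fixed coefficients. -/
abbrev Fib (b : E → F) : Type := {x : F × (E → F) // x.1 ^ 2 - x.1 - ∑ e, x.2 e * b e = 0}

omit [Finite F] in
theorem card_idem : Nat.card {y : F // y ^ 2 - y = 0} = 2 := by
  have h : {y : F | y ^ 2 - y = 0} = {0, 1} := by
    ext y
    rw [Set.mem_ofPred_eq, Set.mem_insert_iff, Set.mem_singleton_iff]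
    constructor
    · intro h
      have h1 : y * (y - 1) = 0 := by rw [← h]; ring
      rcases mul_eq_zero.1 h1 with h2 | h2
      · exact Or.inl h2
      · exact Or.inr (sub_eq_zero.1 h2)
    · rintro (rfl | rfl) <;> ring
  change Nat.card ({y : F | y ^ 2 - y = 0} : Set F) = 2
  rw [h, Nat.card_coe_set_eq, Set.ncard_pair zero_ne_one]

omit [Finite F] in
theorem card_fib_zero (b : E → F) (hb : ∀ e, b e = 0) :
    Nat.card (Fib b) = 2 * Nat.card F ^ Fintype.card E := by
  have e : Fib b ≃ {y : F // y ^ 2 - y = 0} × (E → F) :=
    { toFun := fun x => (⟨x.1.1, by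
        have h := x.2
        simp only [hb, mul_zero, Finset.sum_const_zero, sub_zero] at h
        exact h⟩, x.1.2)
      invFun := fun x => ⟨(x.1.1, x.2), by
        simp only [hb, mul_zero, Finset.sum_const_zero, sub_zero]
        exact x.1.2⟩
      left_inv := fun x => rfl
      right_inv := fun x => rfl }
  rw [Nat.card_congr e, Nat.card_prod, card_idem, Nat.card_fun, Nat.card_eq_fintype_card (α := E)]

omit [Finite F] in
theorem card_fib_ne (b : E → F) {e₀ : E} (hb : b e₀ ≠ 0) :
    Nat.card (Fib b) = Nat.card F ^ Fintype.card E := by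
  classical
  have hsum : ∀ t : E → F, ∑ e, t e * b e = t e₀ * b e₀ + ∑ e ∈ Finset.univ.erase e₀, t e * b e :=
    fun t => (Finset.add_sum_erase _ (fun e => t e * b e) (Finset.mem_univ e₀)).symm
  have hup : ∀ (t : E → F) (c : F), ∑ e ∈ Finset.univ.erase e₀, Function.update t e₀ c e * b e =
      ∑ e ∈ Finset.univ.erase e₀, t e * b e := fun t c =>
    Finset.sum_congr rfl fun e he => by rw [Function.update_of_ne (Finset.ne_of_mem_erase he)]
  have e : Fib b ≃ (E → F) :=
    { toFun := fun x => Function.update x.1.2 e₀ x.1.1
      invFun := fun t => ⟨(t e₀, Function.update t e₀ ((t e₀ ^ 2 - t e₀ -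
          ∑ e ∈ Finset.univ.erase e₀, t e * b e) / b e₀)), by
        rw [hsum]
        dsimp only
        rw [hup, Function.update_self, div_mul_cancel₀ _ hb]
        ring⟩
      left_inv := fun x => by
        obtain ⟨⟨y, t⟩, h⟩ := x
        apply Subtype.ext
        refine Prod.ext ?_ ?_
        · exact Function.update_self e₀ y t
        · change Function.update (Function.update t e₀ y) e₀ _ = t
          rw [Function.update_idem]
          funext e
          by_cases he : e = e₀
          · subst he
            dsimp only
            rw [Function.update_self, Function.update_self, hup, div_eq_iff hb]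
            rw [hsum] at h
            have h' : y ^ 2 - y - (t e * b e + ∑ e' ∈ Finset.univ.erase e, t e' * b e') = 0 := h
            linear_combination h'
          · rw [Function.update_of_ne he]
      right_inv := fun t => by
        funext e
        by_cases he : e = e₀
        · subst he
          exact Function.update_self _ _ _
        · change Function.update (Function.update t e₀ _) e₀ _ e = t e
          rw [Function.update_of_ne he, Function.update_of_ne he] }
  rw [Nat.card_congr e, Nat.card_fun, Nat.card_eq_fintype_card (α := E)]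

/-- The number of solutions of `y ^ 2 - y = ∑ t_e a_e(w)`. -/
theorem card_cover (a : (V → F) → E → F) :
    Nat.card {v : Unit ⊕ (E ⊕ V) → F // v (.inl ()) ^ 2 - v (.inl ()) -
      ∑ e, v (.inr (.inl e)) * a (fun i => v (.inr (.inr i))) e = 0} =
    Nat.card F ^ Fintype.card E *
      (Nat.card F ^ Nat.card V + Nat.card {w : V → F // ∀ e, a w e = 0}) := by
  classical
  have := Fintype.ofFinite F
  have := Fintype.ofFinite V
  have e : {v : Unit ⊕ (E ⊕ V) → F // v (.inl ()) ^ 2 - v (.inl ()) -
      ∑ e, v (.inr (.inl e)) * a (fun i => v (.inr (.inr i))) e = 0} ≃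
      Σ w : V → F, Fib (a w) :=
    { toFun := fun v => ⟨fun i => v.1 (.inr (.inr i)),
        ⟨(v.1 (.inl ()), fun e => v.1 (.inr (.inl e))), v.2⟩⟩
      invFun := fun x => ⟨Sum.elim (fun _ => x.2.1.1) (Sum.elim x.2.1.2 x.1), x.2.2⟩
      left_inv := fun v => by
        apply Subtype.ext
        funext i
        rcases i with i | i | i <;> rfl
      right_inv := fun x => rfl }
  rw [Nat.card_congr e, Nat.card_sigma]
  have h1 : ∀ w : V → F, Nat.card (Fib (a w)) = Nat.card F ^ Fintype.card E +
      if ∀ e, a w e = 0 then Nat.card F ^ Fintype.card E else 0 := by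
    intro w
    by_cases hw : ∀ e, a w e = 0
    · rw [if_pos hw, card_fib_zero _ hw, two_mul]
    · rw [if_neg hw, add_zero]
      obtain ⟨e₀, he⟩ := not_forall.1 hw
      exact card_fib_ne _ he
  simp only [h1]
  rw [Finset.sum_add_distrib, Finset.sum_const, Finset.card_univ, ← Finset.sum_filter,
    Finset.sum_const, smul_eq_mul, smul_eq_mul, mul_add]
  congr 1
  · rw [mul_comm, ← Nat.card_eq_fintype_card (α := V → F), Nat.card_fun]
  · rw [mul_comm]
    congr 1
    rw [Nat.card_eq_fintype_card (α := {w : V → F // ∀ e, a w e = 0}), Fintype.card_subtype]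

end Pool.Agent.H854.Z
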