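import Pool.Agent.H854.Z.Half

/-!
# Gluing the continuations to half-planes
-/

set_option autoImplicit false

open Complex Filter Topology

noncomputable section

namespace Pool.Agent.H854.Z

open Q54.ZE (Tr NoDiv)

variable {S : Set ℂ} {σ : ℝ} {F G : ℂ → ℂ} {c : ℕ → ℂ}

theorem eventually_eq (hF : ∀ s : ℂ, σ < s.re → MeromorphicAt F s)
    (hG : ∀ s : ℂ, σ < s.re → MeromorphicAt G s) {τ : ℝ} (h : ∀ s : ℂ, τ < s.re → F s = G s)
    {s : ℂ} (hs : σ < s.re) : ∀ᶠ z in 𝓝[≠] s, F z = G z := by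
  have hU : IsPreconnected {s : ℂ | σ < s.re} := (convex_halfSpace_re_gt σ).isPreconnected
  have hm : MeromorphicOn (F - G) {s : ℂ | σ < s.re} := fun s hs => (hF s hs).sub (hG s hs)
  have h1 : meromorphicOrderAt (F - G) s = ⊤ := by
    by_contra h2
    have h3 := hm.meromorphicOrderAt_ne_top_of_isPreconnected (y := ((max σ τ + 1 : ℝ) : ℂ)) hU hs
      (by
        change σ < _
        rw [ofReal_re]
        linarith [le_max_left σ τ]) h2
    apply h3
    rw [meromorphicOrderAt_eq_top_iff]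
    have h4 : ∀ᶠ z in 𝓝 ((max σ τ + 1 : ℝ) : ℂ), τ < z.re := by
      refine (isOpen_lt continuous_const continuous_re).mem_nhds ?_
      change τ < _
      rw [ofReal_re]
      linarith [le_max_right σ τ]
    filter_upwards [mem_nhdsWithin_of_mem_nhds h4] with z hz
    rw [Pi.sub_apply, h z hz, sub_self]
  rw [meromorphicOrderAt_eq_top_iff] at h1
  filter_upwards [h1] with z hz
  exact sub_eq_zero.1 hz

/-- If there are continuations to all half-planes, then there is a continuation to the plane. -/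
theorem glue (h : ∀ σ : ℝ, Cont S σ c) :
    ∃ F : ℂ → ℂ, NoDiv S F ∧ ∃ τ : ℝ, ∀ s : ℂ, τ < s.re → F s = exp (LSeries c s) := by
  choose F hF τ hτ using fun n : ℕ => h (-(n : ℝ))
  let nn : ℂ → ℕ := fun s => ⌈-s.re⌉₊ + 2
  have hnn : ∀ s : ℂ, -s.re + 2 ≤ nn s := by
    intro s
    have := Nat.le_ceil (-s.re)
    simp only [nn]
    push_cast
    linarith
  have key : ∀ s₀ : ℂ, ∃ N : ℕ, -(N : ℝ) < s₀.re ∧ ∀ᶠ z in 𝓝[≠] s₀, F (nn z) z = F N z := by
    intro s₀
    refine ⟨⌈-s₀.re + 1⌉₊ + 2, ?_, ?_⟩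
    · have := Nat.le_ceil (-s₀.re + 1)
      push_cast
      linarith
    · set N := ⌈-s₀.re + 1⌉₊ + 2 with hN
      have hN' : -(N : ℝ) < s₀.re := by
        have := Nat.le_ceil (-s₀.re + 1)
        rw [hN]
        push_cast
        linarith
      have h1 : ∀ᶠ z in 𝓝[≠] s₀, ∀ n ∈ Set.Iic N, -(n : ℝ) < s₀.re → F n z = F N z := by
        rw [Filter.eventually_all_finite (Set.finite_Iic N)]
        intro n hn
        by_cases h2 : -(n : ℝ) < s₀.re
        · have hnN : -(N : ℝ) ≤ -(n : ℝ) := by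
            have : (n : ℝ) ≤ N := by exact_mod_cast hn
            linarith
          have h3 := eventually_eq (σ := -(n : ℝ)) (F := F n) (G := F N) (τ := max (τ n) (τ N))
            (fun s hs => (hF n).mero s hs) (fun s hs => (hF N).mero s (hnN.trans_lt hs))
            (fun s hs => by
              rw [hτ n s ((le_max_left _ _).trans_lt hs), hτ N s ((le_max_right _ _).trans_lt hs)])
            h2
          filter_upwards [h3] with z hz _
          exact hz
        · exact Filter.Eventually.of_forall fun z hz => absurd hz h2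
      have h4 : ∀ᶠ z in 𝓝[≠] s₀, s₀.re - 1 < z.re ∧ z.re < s₀.re + 1 := by
        refine mem_nhdsWithin_of_mem_nhds ?_
        have h5 : IsOpen {z : ℂ | s₀.re - 1 < z.re ∧ z.re < s₀.re + 1} :=
          (isOpen_lt continuous_const continuous_re).inter
            (isOpen_lt continuous_re continuous_const)
        exact h5.mem_nhds ⟨by linarith, by linarith⟩
      filter_upwards [h1, h4] with z hz1 hz2
      refine hz1 _ ?_ ?_
      · change ⌈-z.re⌉₊ + 2 ≤ N
        rw [hN]
        have := Nat.ceil_mono (show -z.re ≤ -s₀.re + 1 by linarith)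
        omega
      · have := hnn z
        linarith
  refine ⟨fun z => F (nn z) z, ⟨fun s _ => ?_, fun s hs => ?_⟩, max (τ 2) 0, fun s hs => ?_⟩
  · obtain ⟨N, h1, h2⟩ := key s
    exact ((hF N).mero s h1).congr (h2.mono fun z hz => hz.symm)
  · obtain ⟨N, h1, h2⟩ := key s
    rw [meromorphicOrderAt_congr h2]
    exact (hF N).order s h1 hs
  · rw [max_lt_iff] at hs
    have h1 : nn s = 2 := by
      have : ⌈-s.re⌉₊ = 0 := Nat.ceil_eq_zero.2 (by linarith)
      simp only [nn, this]
    change F (nn s) s = _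
    rw [h1]
    exact hτ 2 s hs.1

/-- The continuation to the plane restricts to all half-planes. -/
theorem cont_of_noDiv (h : ∃ F : ℂ → ℂ, NoDiv S F ∧ ∃ τ : ℝ, ∀ s : ℂ, τ < s.re →
    F s = exp (LSeries c s)) (σ : ℝ) : Cont S σ c := by
  obtain ⟨F, hF, h1⟩ := h
  exact ⟨F, ⟨fun s _ => hF.mero s trivial, fun s _ hs => hF.order s hs⟩, h1⟩

end Pool.Agent.H854.Z
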