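import Mathlib

/-!
# One sequence of smooth affine cubic hypersurfaces over the integers: definitions
-/

set_option autoImplicit false

open MvPolynomial

noncomputable section

namespace Pool.Agent.H854.Z

/-- The number of the triple `(k, i, j)` in an enumeration of all triples of natural numbers. -/
def num (k i j : ℕ) : ℕ := Nat.pair k (Nat.pair i j)

/-- The triples `(k, i, j)` with `k < c` and `i, j < m`. -/
abbrev Tri (c m : ℕ) : Type := Fin c × Fin m × Fin m

/-- The weight `m 2 ^ (number of r)` of the triple `r`. -/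
def wgt {c m : ℕ} (r : Tri c m) : ℕ := m * 2 ^ num r.1 r.2.1 r.2.2

/-- The variables `y_j`, `z_k`, `p_kj`, `a_kij` and `u_rl` for `k < c`, `i, j < m`, and `l < wgt r`
for the triples `r = (k, i, j)`. -/
abbrev Var (c m : ℕ) : Type :=
  Fin m ⊕ Fin c ⊕ (Fin c × Fin m) ⊕ Tri c m ⊕ (Σ r : Tri c m, Fin (wgt r))

/-- The indices of the equations. -/
abbrev Eqn (c m : ℕ) : Type :=
  (Fin c × Fin m) ⊕ Fin m ⊕ Tri c m ⊕ (Σ r : Tri c m, Fin (wgt r))

section

variable {c m : ℕ}

/-- The variable `y_j`. -/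
def vy (j : Fin m) : MvPolynomial (Var c m) ℤ := X (.inl j)

/-- The variable `z_k`. -/
def vz (k : Fin c) : MvPolynomial (Var c m) ℤ := X (.inr (.inl k))

/-- The variable `p_kj`. -/
def vp (k : Fin c) (j : Fin m) : MvPolynomial (Var c m) ℤ := X (.inr (.inr (.inl (k, j))))

/-- The variable `a_kij`. -/
def va (r : Tri c m) : MvPolynomial (Var c m) ℤ := X (.inr (.inr (.inr (.inl r))))

/-- The variable `u_rl`. -/
def vu (b : Σ r : Tri c m, Fin (wgt r)) : MvPolynomial (Var c m) ℤ :=
  X (.inr (.inr (.inr (.inr b))))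

/-- The equations `p_kj - z_k y_j`, `∑ a_kij p_kj` (sum over `k` and `j`), `a_kij ^ 2 - a_kij`, and
`a_kij u_rl` with `r = (k, i, j)`. -/
def eqn : Eqn c m → MvPolynomial (Var c m) ℤ
  | .inl (k, j) => vp k j - vz k * vy j
  | .inr (.inl i) => ∑ k : Fin c, ∑ j : Fin m, va (k, i, j) * vp k j
  | .inr (.inr (.inl r)) => va r ^ 2 - va r
  | .inr (.inr (.inr b)) => va b.1 * vu b

end

/-- The polynomial `x ^ 2 - x - ∑ t_e (equation e)` with further variables `x` and `t_e` for all
equations. -/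
def hyper (c m : ℕ) : MvPolynomial (Unit ⊕ (Eqn c m ⊕ Var c m)) ℤ :=
  X (.inl ()) ^ 2 - X (.inl ()) -
    ∑ e : Eqn c m, X (.inr (.inl e)) * rename (fun v => .inr (.inr v)) (eqn e)

/-- The ring of functions on the affine cubic hypersurface `x ^ 2 - x = ∑ t_e (equation e)`. -/
abbrev HRing (c m : ℕ) : Type :=
  MvPolynomial (Unit ⊕ (Eqn c m ⊕ Var c m)) ℤ ⧸ Ideal.span {hyper c m}

end Pool.Agent.H854.Z
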