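import Pool.Graph.R_pool_sql_team_seeded_3997aac3.Q54.ZE.Mer

/-!
# Meromorphic continuation to half-planes
-/

set_option autoImplicit false

open Complex Filter Topology

noncomputable section

namespace Pool.Agent.H854.Z

open Q54.ZE (Tr)

/-- The function is meromorphic for `σ < re s`, and its zeros and poles there are in `S`. -/
structure HDiv (S : Set ℂ) (σ : ℝ) (F : ℂ → ℂ) : Prop where
  mero : ∀ s : ℂ, σ < s.re → MeromorphicAt F s
  order : ∀ s : ℂ, σ < s.re → s ∉ S → meromorphicOrderAt F s = 0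

variable {S : Set ℂ} {σ τ : ℝ} {F G : ℂ → ℂ} {c c' : ℕ → ℂ}

theorem HDiv.mono (h : HDiv S σ F) (hs : σ ≤ τ) : HDiv S τ F :=
  ⟨fun s h1 => h.mero s (hs.trans_lt h1), fun s h1 => h.order s (hs.trans_lt h1)⟩

theorem HDiv.mul (hF : HDiv S σ F) (hG : HDiv S σ G) : HDiv S σ (F * G) where
  mero s hs := (hF.mero s hs).mul (hG.mero s hs)
  order s hs h := by
    rw [meromorphicOrderAt_mul (hF.mero s hs) (hG.mero s hs), hF.order s hs h,
      hG.order s hs h, add_zero]

theorem HDiv.div (hF : HDiv S σ F) (hG : HDiv S σ G) : HDiv S σ (F / G) where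
  mero s hs := (hF.mero s hs).div (hG.mero s hs)
  order s hs h := by
    rw [meromorphicOrderAt_div (hF.mero s hs) (hG.mero s hs), hF.order s hs h,
      hG.order s hs h, sub_zero]

/-- Translation by an integer. -/
theorem HDiv.shift (hS : Tr S) (hF : HDiv S σ F) (m : ℤ) :
    HDiv S (σ + m) fun s => F (s - m) where
  mero s hs := MeromorphicAt.comp_analyticAt (f := F) (g := fun s => s - m)
    (hF.mero (s - m) (by rw [sub_re, intCast_re]; linarith)) (by fun_prop)
  order s hs h := by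
    rw [meromorphicOrderAt_fun_comp_sub_const_eq_meromorphicOrderAt]
    refine hF.order _ (by rw [sub_re, intCast_re]; linarith) fun h1 => h ?_
    obtain ⟨n, rfl | rfl⟩ := m.eq_nat_or_neg
    · rw [Int.cast_natCast] at h1
      exact (hS.sub s n).1 h1
    · rw [Int.cast_neg, Int.cast_natCast, sub_neg_eq_add] at h1
      exact (hS.add s n).1 h1

/-- The Dirichlet series with the coefficients `c` converges absolutely in a half-plane. -/
def Conv (c : ℕ → ℂ) : Prop := ∃ τ : ℝ, ∀ s : ℂ, τ < s.re → LSeriesSummable c s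

theorem Conv.add (h : Conv c) (h' : Conv c') : Conv (c + c') := by
  obtain ⟨τ, h⟩ := h
  obtain ⟨τ', h'⟩ := h'
  exact ⟨max τ τ', fun s hs => (h s ((le_max_left _ _).trans_lt hs)).add
    (h' s ((le_max_right _ _).trans_lt hs))⟩

theorem Conv.sub (h : Conv c) (h' : Conv c') : Conv (c - c') := by
  obtain ⟨τ, h⟩ := h
  obtain ⟨τ', h'⟩ := h'
  exact ⟨max τ τ', fun s hs => (h s ((le_max_left _ _).trans_lt hs)).sub
    (h' s ((le_max_right _ _).trans_lt hs))⟩

/-- The exponential of the Dirichlet series has a meromorphic continuation to `σ < re s` with zeros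
and poles in `S`. -/
def Cont (S : Set ℂ) (σ : ℝ) (c : ℕ → ℂ) : Prop :=
  ∃ F : ℂ → ℂ, HDiv S σ F ∧ ∃ τ : ℝ, ∀ s : ℂ, τ < s.re → F s = exp (LSeries c s)

theorem Cont.mono (h : Cont S σ c) (hs : σ ≤ τ) : Cont S τ c := by
  obtain ⟨F, hF, h1⟩ := h
  exact ⟨F, hF.mono hs, h1⟩

theorem Cont.add (hc : Conv c) (hc' : Conv c') (h : Cont S σ c) (h' : Cont S σ c') :
    Cont S σ (c + c') := by
  obtain ⟨F, hF, a, h1⟩ := h
  obtain ⟨G, hG, b, h2⟩ := h'
  obtain ⟨d, hd⟩ := hc
  obtain ⟨e, he⟩ := hc'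
  refine ⟨F * G, hF.mul hG, max (max a b) (max d e), fun s hs => ?_⟩
  rw [max_lt_iff, max_lt_iff, max_lt_iff] at hs
  rw [LSeries_add (hd s hs.2.1) (he s hs.2.2), exp_add, ← h1 s hs.1.1, ← h2 s hs.1.2]
  rfl

theorem Cont.sub (hc : Conv c) (hc' : Conv c') (h : Cont S σ c) (h' : Cont S σ c') :
    Cont S σ (c - c') := by
  obtain ⟨F, hF, a, h1⟩ := h
  obtain ⟨G, hG, b, h2⟩ := h'
  obtain ⟨d, hd⟩ := hc
  obtain ⟨e, he⟩ := hc'
  refine ⟨F / G, hF.div hG, max (max a b) (max d e), fun s hs => ?_⟩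
  rw [max_lt_iff, max_lt_iff, max_lt_iff] at hs
  rw [LSeries_sub (hd s hs.2.1) (he s hs.2.2), exp_sub, ← h1 s hs.1.1, ← h2 s hs.1.2]
  rfl

/-- The coefficients `k ^ m * c k`. -/
def tw (m : ℤ) (c : ℕ → ℂ) (k : ℕ) : ℂ := (k : ℂ) ^ m * c k

theorem term_tw (m : ℤ) (c : ℕ → ℂ) (s : ℂ) :
    LSeries.term (tw m c) s = LSeries.term c (s - m) := by
  funext k
  rcases Nat.eq_zero_or_pos k with rfl | hk
  · rw [LSeries.term_zero, LSeries.term_zero]
  · have h0 : (k : ℂ) ≠ 0 := by exact_mod_cast hk.ne'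
    rw [LSeries.term_of_ne_zero hk.ne', LSeries.term_of_ne_zero hk.ne', tw, cpow_sub _ _ h0,
      cpow_intCast]
    field_simp

theorem LSeries_tw (m : ℤ) (c : ℕ → ℂ) (s : ℂ) : LSeries (tw m c) s = LSeries c (s - m) := by
  rw [LSeries, LSeries, term_tw]

theorem summable_tw (m : ℤ) (c : ℕ → ℂ) (s : ℂ) :
    LSeriesSummable (tw m c) s ↔ LSeriesSummable c (s - m) := by
  rw [LSeriesSummable, LSeriesSummable, term_tw]

theorem Conv.tw (h : Conv c) (m : ℤ) : Conv (tw m c) := by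
  obtain ⟨τ, h⟩ := h
  refine ⟨τ + m, fun s hs => (summable_tw m c s).2 (h _ ?_)⟩
  rw [sub_re, intCast_re]
  linarith

theorem Cont.tw (hS : Tr S) (h : Cont S σ c) (m : ℤ) : Cont S (σ + m) (tw m c) := by
  obtain ⟨F, hF, τ, h1⟩ := h
  refine ⟨fun s => F (s - m), hF.shift hS m, τ + m, fun s hs => ?_⟩
  rw [LSeries_tw]
  exact h1 _ (by rw [sub_re, intCast_re]; linarith)

theorem tw_tw {m n : ℤ} (h0 : c 0 = 0) : tw m (tw n c) = tw (m + n) c := by
  funext k
  rcases Nat.eq_zero_or_pos k with rfl | hk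
  · rw [tw, tw, tw, h0, mul_zero, mul_zero, mul_zero]
  · have h1 : (k : ℂ) ≠ 0 := by exact_mod_cast hk.ne'
    rw [tw, tw, tw, ← mul_assoc, ← zpow_add₀ h1]

theorem tw_zero (c : ℕ → ℂ) : tw 0 c = c := by
  funext k
  rw [tw, zpow_zero, one_mul]

/-- In the half-plane of absolute convergence there are no zeros and poles. -/
theorem cont_of_summable (h : ∀ s : ℂ, σ < s.re → LSeriesSummable c s) : Cont S σ c := by
  refine ⟨fun s => exp (LSeries c s), ?_, σ, fun s _ => rfl⟩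
  have h1 : ∀ s : ℂ, σ < s.re → AnalyticAt ℂ (fun s => exp (LSeries c s)) s := by
    intro s hs
    refine AnalyticAt.cexp (LSeries_analyticOnNhd c s ?_)
    change LSeries.abscissaOfAbsConv c < s.re
    obtain ⟨a, ha, ha'⟩ := exists_between hs
    refine (LSeries.abscissaOfAbsConv_le_of_forall_lt_LSeriesSummable' (x := (a : EReal)) ?_).trans_lt
      (by exact_mod_cast ha')
    intro y hy
    have hy' : a < y := by exact_mod_cast hy
    exact h _ (by rw [ofReal_re]; linarith)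
  exact ⟨fun s hs => (h1 s hs).meromorphicAt, fun s hs _ => by
    rw [(h1 s hs).meromorphicOrderAt_eq, (h1 s hs).analyticOrderAt_eq_zero.2 (exp_ne_zero _)]
    rfl⟩

/-- Bounded coefficients. -/
theorem cont_of_le {m : ℤ} (h : ∀ k : ℕ, k ≠ 0 → ‖c k‖ ≤ (k : ℝ) ^ m) (s : ℂ)
    (hs : (m : ℝ) + 1 < s.re) : LSeriesSummable c s := by
  refine LSeriesSummable_of_le_const_mul_rpow (x := m + 1) hs ⟨1, fun k hk => ?_⟩
  rw [one_mul, add_sub_cancel_right, Real.rpow_intCast]
  exact h k hk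

end Pool.Agent.H854.Z
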