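import Pool.Agent.H854.Z.Ring

/-!
# Zeta functions of schemes of finite type over the integers and one sequence of hypersurfaces
-/

set_option autoImplicit false

open MvPolynomial Filter

noncomputable section

namespace Pool.Agent.H854.Z

open Q54.ZE

/-- All sets of triples. -/
def PP (c m : ℕ) : Finset (Finset ℕ) := (Finset.univ.map (numEmb c m)).powerset

theorem mem_all {c m : ℕ} {r : ℕ} : r ∈ Finset.univ.map (numEmb c m) ↔
    ∃ k i j, k < c ∧ i < m ∧ j < m ∧ num k i j = r := by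
  constructor
  · intro h
    obtain ⟨⟨k, i, j⟩, -, rfl⟩ := Finset.mem_map.1 h
    exact ⟨k, i, j, k.2, i.2, j.2, rfl⟩
  · rintro ⟨k, i, j, hk, hi, hj, rfl⟩
    exact Finset.mem_map.2 ⟨(⟨k, hk⟩, ⟨i, hi⟩, ⟨j, hj⟩), Finset.mem_univ _, rfl⟩

theorem num_inj {k i j k' i' j' : ℕ} (h : num k i j = num k' i' j') : k = k' ∧ i = i' ∧ j = j' := by
  rw [num, num, Nat.pair_eq_pair, Nat.pair_eq_pair] at h
  exact h

theorem mem_pp {c m : ℕ} {s : Finset ℕ} : s ∈ PP c m ↔
    ∀ r ∈ s, ∃ k i j, k < c ∧ i < m ∧ j < m ∧ num k i j = r := by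
  rw [PP, Finset.mem_powerset]
  exact forall₂_congr fun r _ => mem_all

theorem bdd_of_mem {c m : ℕ} {s : Finset ℕ} (h : s ∈ PP c m) : Bdd s c m m := by
  intro k i j hs
  obtain ⟨k', i', j', hk, hi, hj, h1⟩ := mem_pp.1 h _ hs
  obtain ⟨rfl, rfl, rfl⟩ := num_inj h1
  exact ⟨hk, hi, hj⟩

theorem pp_mono {c m c' m' : ℕ} (hc : c ≤ c') (hm : m ≤ m') : PP c m ⊆ PP c' m' := by
  intro s hs
  rw [mem_pp] at hs ⊢
  intro r hr
  obtain ⟨k, i, j, hk, hi, hj, h1⟩ := hs r hr
  exact ⟨k, i, j, hk.trans_le hc, hi.trans_le hm, hj.trans_le hm, h1⟩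

theorem sum_map {R : Type} [AddCommMonoid R] (c m : ℕ) (g : Finset ℕ → R) :
    ∑ s : Finset (Tri c m), g (s.map (numEmb c m)) = ∑ t ∈ PP c m, g t := by
  refine Finset.sum_bij (fun s _ => s.map (numEmb c m)) ?_ ?_ ?_ ?_
  · intro s _
    rw [PP, Finset.mem_powerset]
    exact Finset.map_subset_map.2 (Finset.subset_univ s)
  · intro s _ s' _ h
    exact Finset.map_injective _ h
  · intro t ht
    rw [PP, Finset.mem_powerset] at ht
    classical
    refine ⟨Finset.univ.filter fun r => numEmb c m r ∈ t, Finset.mem_univ _, ?_⟩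
    ext r
    rw [Finset.mem_map]
    constructor
    · rintro ⟨x, hx, rfl⟩
      exact (Finset.mem_filter.1 hx).2
    · intro hr
      obtain ⟨x, -, rfl⟩ := Finset.mem_map.1 (ht hr)
      exact ⟨x, Finset.mem_filter.2 ⟨Finset.mem_univ _, hr⟩, rfl⟩
  · intro s _
    rfl

/-- The number of the variables `u_rl`. -/
def dd (c m : ℕ) : ℕ := m * bin (Finset.univ.map (numEmb c m))

theorem card_var (c m : ℕ) :
    Nat.card (Var c m) = m + (c + (c * m + (c * (m * m) + dd c m))) := by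
  have h1 : ∑ r : Tri c m, wgt r = dd c m := by
    rw [dd, bin, Finset.mul_sum, Finset.sum_map]
    rfl
  rw [Nat.card_eq_fintype_card, Fintype.card_sum, Fintype.card_sum, Fintype.card_sum,
    Fintype.card_sum, Fintype.card_prod, Fintype.card_prod, Fintype.card_prod, Fintype.card_fin,
    Fintype.card_fin, Fintype.card_sigma]
  simp only [Fintype.card_fin]
  rw [h1]

theorem ser_zero {u : Finset ℕ → ℕ → ℂ} {k : ℕ} (h : ∀ t, u t k = 0) (a : ℕ)
    (P : Finset (Finset ℕ)) (m : ℕ) : ser u a P m k = 0 := by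
  rw [ser, Pi.add_apply, Finset.sum_apply, tw, h, mul_zero, zero_add]
  refine Finset.sum_eq_zero fun t _ => ?_
  rw [tw, h, mul_zero]

/-- The exponent of the twist. -/
def expo (c m : ℕ) : ℤ := Fintype.card (Eqn c m) + dd c m + m + c

/-- The exponent of the first term. -/
def aa (c m : ℕ) : ℕ := c * m + c * (m * m)

theorem us_cast (c m p n : ℕ) [hp : Fact p.Prime] (hn : n ≠ 0) (s : Finset (Tri c m)) :
    (Nat.card (Us (GaloisField p n) s) : ℂ) =
      ((p ^ n : ℕ) : ℂ) ^ ((dd c m : ℤ) - (m : ℤ) * bin (s.map (numEmb c m))) := by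
  have hq0 : ((p ^ n : ℕ) : ℂ) ≠ 0 := by exact_mod_cast (pow_pos hp.out.pos n).ne'
  have h1 := card_us (F := GaloisField p n) s
  rw [GaloisField.card p n hn] at h1
  have h2 : (Nat.card (Us (GaloisField p n) s) : ℂ) *
      ((p ^ n : ℕ) : ℂ) ^ (m * bin (s.map (numEmb c m))) = ((p ^ n : ℕ) : ℂ) ^ dd c m := by
    rw [dd]
    exact_mod_cast h1
  rw [zpow_sub₀ hq0, eq_div_iff (zpow_ne_zero _ hq0), zpow_natCast, ← h2, ← Nat.cast_mul,
    zpow_natCast]

theorem uu_empty (p n : ℕ) [hp : Fact p.Prime] (hn : n ≠ 0) : (n : ℂ) * uu ∅ (p ^ n) = 1 := by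
  have hq0 : ((p ^ n : ℕ) : ℂ) ≠ 0 := by exact_mod_cast (pow_pos hp.out.pos n).ne'
  have h4 := uu_mul (t := ∅) (c := 0) (a := 0) (b := 0)
    (fun k i j h => absurd h (Finset.notMem_empty _)) p n hn
  have : Subsingleton (KerPairs (GaloisField p n) (mat ∅ 0 0 0)) :=
    ⟨fun x y => Subtype.ext (Prod.ext (funext fun i => i.elim0) (funext fun i => i.elim0))⟩
  have : Nonempty (KerPairs (GaloisField p n) (mat ∅ 0 0 0)) :=
    ⟨⟨(fun i => i.elim0, fun i => i.elim0), fun i => i.elim0⟩⟩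
  rw [Nat.card_unique] at h4
  simpa using h4

/-- The Euler product of the hypersurface. -/
theorem cf_hring (c m : ℕ) : cf (HRing c m) = tw (expo c m) (ser uu (aa c m) (PP c m) m) := by
  funext k
  by_cases h : ∃ p n : ℕ, p.Prime ∧ n ≠ 0 ∧ k = p ^ n
  · obtain ⟨p, n, hp, hn, rfl⟩ := h
    have : Fact p.Prime := ⟨hp⟩
    have h0 := uu_empty p n hn
    set q : ℕ := p ^ n with hq
    have hq0 : (q : ℂ) ≠ 0 := by exact_mod_cast (pow_pos hp.pos n).ne'
    have hF : Nat.card (GaloisField p n) = q := GaloisField.card p n hn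
    have hn' : (n : ℂ) ≠ 0 := by exact_mod_cast hn
    apply mul_left_cancel₀ hn'
    rw [cf_mul _ p n hn, card_hring, card_ws, hF, card_var]
    set T := Fintype.card (Eqn c m) with hT
    set D := dd c m with hD
    have hsum : (∑ s : Finset (Tri c m), (Nat.card (KerPairs (GaloisField p n)
        (mat (s.map (numEmb c m)) c m m)) : ℂ) * (Nat.card (Us (GaloisField p n) s) : ℂ)) =
        ∑ t ∈ PP c m, (Nat.card (KerPairs (GaloisField p n) (mat t c m m)) : ℂ) *
          (q : ℂ) ^ ((D : ℤ) - (m : ℤ) * bin t) := by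
      rw [← sum_map c m fun t => (Nat.card (KerPairs (GaloisField p n) (mat t c m m)) : ℂ) *
        (q : ℂ) ^ ((D : ℤ) - (m : ℤ) * bin t)]
      exact Finset.sum_congr rfl fun s _ => by rw [us_cast c m p n hn s]
    rw [Nat.cast_mul, Nat.cast_add, Nat.cast_sum]
    simp only [Nat.cast_mul, Nat.cast_pow]
    rw [hsum, tw, ser, Pi.add_apply, Finset.sum_apply]
    have ht : ∀ t ∈ PP c m, (n : ℂ) * uu t q =
        (q : ℂ) ^ (-(m + c : ℕ) : ℤ) * Nat.card (KerPairs (GaloisField p n) (mat t c m m)) :=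
      fun t ht => uu_mul (bdd_of_mem ht) p n hn
    calc (q : ℂ) ^ T * ((q : ℂ) ^ (m + (c + (c * m + (c * (m * m) + D)))) +
          ∑ t ∈ PP c m, (Nat.card (KerPairs (GaloisField p n) (mat t c m m)) : ℂ) *
            (q : ℂ) ^ ((D : ℤ) - (m : ℤ) * bin t))
        = (q : ℂ) ^ expo c m * ((q : ℂ) ^ (aa c m : ℤ) * 1 +
          ∑ t ∈ PP c m, (q : ℂ) ^ (-((m : ℤ) * bin t)) *
            ((q : ℂ) ^ (-(m + c : ℕ) : ℤ) *
              Nat.card (KerPairs (GaloisField p n) (mat t c m m)))) := by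
          have he : (q : ℂ) ^ expo c m = (q : ℂ) ^ T * (q : ℂ) ^ ((D : ℤ) + m + c) := by
            rw [← zpow_natCast, ← zpow_add₀ hq0]
            congr 1
            rw [expo, hD, hT]
            ring
          rw [he, mul_assoc]
          congr 1
          rw [mul_add]
          congr 1
          · rw [mul_one, ← zpow_add₀ hq0, ← zpow_natCast]
            congr 1
            rw [aa]
            push_cast
            ring
          · rw [Finset.mul_sum]
            refine Finset.sum_congr rfl fun t _ => ?_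
            rw [← mul_assoc, ← mul_assoc, ← zpow_add₀ hq0, ← zpow_add₀ hq0, mul_comm]
            congr 2
            push_cast
            ring
      _ = (q : ℂ) ^ expo c m * ((q : ℂ) ^ (aa c m : ℤ) * ((n : ℂ) * uu ∅ q) +
          ∑ t ∈ PP c m, (q : ℂ) ^ (-((m : ℤ) * bin t)) * ((n : ℂ) * uu t q)) := by
          rw [h0]
          congr 2
          exact Finset.sum_congr rfl fun t h4 => by rw [ht t h4]
      _ = (n : ℂ) * ((q : ℂ) ^ expo c m * (tw (aa c m : ℤ) (uu ∅) q +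
          ∑ t ∈ PP c m, tw (-((m : ℤ) * bin t)) (uu t) q)) := by
          simp only [tw]
          rw [mul_left_comm (n : ℂ), mul_add (n : ℂ), Finset.mul_sum, mul_left_comm (n : ℂ)]
          congr 2
          exact Finset.sum_congr rfl fun t _ => mul_left_comm _ _ _
  · rw [cf_zero _ h, tw, ser_zero (fun t => by rw [uu, tw, cf_zero _ h, mul_zero]), mul_zero]

section cont

variable {S : Set ℂ}

theorem lseries_co {I : Type} {N : I → ℕ} {σ : ℝ} (h : Good N σ) {s : ℂ} (hs : σ ≤ s.re) :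
    LSeriesSummable (co N) s ∧ LSeries (co N) s = lg N s := by
  have h1 := hasSum_co h hs
  have h2 : LSeries.term (co N) s = fun k : ℕ => co N k * (k : ℂ) ^ (-s) := by
    funext k
    rw [LSeries.term_def₀ (co_zero h)]
  rw [LSeriesSummable, LSeries, h2]
  exact ⟨h1.summable, h1.tsum_eq⟩

theorem mer_iff_cont {I : Type} {N : I → ℕ} {σ : ℝ} (h : Good N σ) :
    Mer S N ↔ ∀ τ : ℝ, Cont S τ (co N) := by
  rw [mer_iff h]
  constructor
  · rintro ⟨F, hF, τ, h1⟩ ρ
    refine cont_of_noDiv ⟨F, hF, max σ τ, fun s hs => ?_⟩ ρ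
    rw [max_lt_iff] at hs
    rw [h1 s hs.2, (lseries_co h hs.1.le).2]
  · intro h1
    obtain ⟨F, hF, τ, h2⟩ := glue h1
    refine ⟨F, hF, max σ τ, fun s hs => ?_⟩
    rw [max_lt_iff] at hs
    rw [h2 s hs.2, (lseries_co h hs.1.le).2]

theorem mer_iff_cf (A : Type) [CommRing A] [Algebra ℤ A] [Algebra.FiniteType ℤ A] :
    Mer S (idN (maxS A)) ↔ ∀ τ : ℝ, Cont S τ (cf A) := by
  obtain ⟨σ, h⟩ := exists_good (A := A) (S := maxS A) (subset_rfl (a := maxS A))
  exact mer_iff_cont h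

theorem cont_tw_iff (hS : Tr S) {c : ℕ → ℂ} (h0 : c 0 = 0) (a : ℤ) :
    (∀ τ : ℝ, Cont S τ (tw a c)) ↔ ∀ τ : ℝ, Cont S τ c := by
  constructor
  · intro h τ
    have h1 := (h (τ + a)).tw hS (-a)
    rw [tw_tw h0, neg_add_cancel, tw_zero] at h1
    push_cast at h1
    rwa [add_neg_cancel_right] at h1
  · intro h τ
    have h1 := (h (τ - a)).tw hS a
    rwa [sub_add_cancel] at h1

/-- The zeta function of the hypersurface. -/
theorem mer_hring (hS : Tr S) (c m : ℕ) : Mer S (idN (maxS (HRing c m))) ↔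
    ∀ τ : ℝ, Cont S τ (ser uu (aa c m) (PP c m) m) := by
  rw [mer_iff_cf, cf_hring, cont_tw_iff hS (ser_zero uu_zero _ _ m)]

/-- The function of a list of matrices. -/
theorem net_iff (hS : Tr S) {s : Finset ℕ} {c a b : ℕ} (hs : Bdd s c a b) :
    (∃ F : ℂ → ℂ, NoDiv S F ∧ ∃ τ : ℝ, ∀ z : ℂ, τ < z.re → F z = netZeta (mat s c a b) z) ↔
      ∀ τ : ℝ, Cont S τ (uu s) := by
  have h1 : slices (fun (i : Fin a) (j : Fin b) (k : Fin c) => mat s c a b k i j) =
      mat s c a b := rfl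
  rw [← h1, ← mer_net, mer_iff_cf]
  have h2 : cf (NR s c a b) = tw (b + c : ℕ) (uu s) := by
    funext k
    by_cases h : ∃ p n : ℕ, p.Prime ∧ n ≠ 0 ∧ k = p ^ n
    · obtain ⟨p, n, hp, hn, rfl⟩ := h
      have : Fact p.Prime := ⟨hp⟩
      have hq0 : ((p ^ n : ℕ) : ℂ) ≠ 0 := by exact_mod_cast (pow_pos hp.pos n).ne'
      have hn' : (n : ℂ) ≠ 0 := by exact_mod_cast hn
      apply mul_left_cancel₀ hn'
      rw [cf_mul _ p n hn, card_nr, tw, mul_left_comm, uu_mul hs, ← mul_assoc, ← zpow_add₀ hq0,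
        add_neg_cancel, zpow_zero, one_mul]
      exact hn
    · rw [cf_zero _ h, tw, uu, tw, cf_zero _ h, mul_zero, mul_zero]
  rw [h2, cont_tw_iff hS (uu_zero s)]

/-- The set of triples of a list of matrices with entries `0` and `1`. -/
theorem exists_mat {c a b : ℕ} (A : Fin c → Matrix (Fin a) (Fin b) ℤ)
    (hA : ∀ k i j, A k i j = 0 ∨ A k i j = 1) :
    ∃ s : Finset ℕ, Bdd s c a b ∧ A = mat s c a b ∧ ∀ c' m, c ≤ c' → a ≤ m → b ≤ m →
      s ∈ PP c' m := by
  classical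
  let f : Fin c × Fin a × Fin b → ℕ := fun x => num x.1 x.2.1 x.2.2
  let s : Finset ℕ := (Finset.univ.filter fun x : Fin c × Fin a × Fin b =>
    A x.1 x.2.1 x.2.2 = 1).image f
  have hmem : ∀ r, r ∈ s ↔ ∃ k i j, A k i j = 1 ∧ num k i j = r := by
    intro r
    rw [Finset.mem_image]
    constructor
    · rintro ⟨⟨k, i, j⟩, h1, h2⟩
      exact ⟨k, i, j, (Finset.mem_filter.1 h1).2, h2⟩
    · rintro ⟨k, i, j, h1, h2⟩
      exact ⟨(k, i, j), Finset.mem_filter.2 ⟨Finset.mem_univ _, h1⟩, h2⟩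
  refine ⟨s, ?_, ?_, ?_⟩
  · intro k i j h
    obtain ⟨k', i', j', -, h1⟩ := (hmem _).1 h
    obtain ⟨h2, h3, h4⟩ := num_inj h1
    exact ⟨h2 ▸ k'.2, h3 ▸ i'.2, h4 ▸ j'.2⟩
  · funext k
    ext i j
    change A k i j = if num k i j ∈ s then 1 else 0
    by_cases h : num k i j ∈ s
    · rw [if_pos h]
      obtain ⟨k', i', j', h1, h2⟩ := (hmem _).1 h
      obtain ⟨h3, h4, h5⟩ := num_inj h2
      rw [← Fin.ext h3, ← Fin.ext h4, ← Fin.ext h5]
      exact h1
    · rw [if_neg h]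
      exact (hA k i j).resolve_right fun h1 => h ((hmem _).2 ⟨k, i, j, h1, rfl⟩)
  · intro c' m hc ha hb
    rw [mem_pp]
    intro r hr
    obtain ⟨k, i, j, -, rfl⟩ := (hmem _).1 hr
    exact ⟨k, i, j, k.2.trans_le hc, i.2.trans_le ha, j.2.trans_le hb, rfl⟩

/-- If infinitely many members of the sequence have meromorphic zeta functions, then the functions of
all lists of matrices are meromorphic. -/
theorem net_of_freq (hS : Tr S) {cs : ℕ → ℕ} (hcs : Monotone cs) (h1 : ∀ m, 0 < m → 0 < cs m)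
    (h : ∃ᶠ m in atTop, Mer S (idN (maxS (HRing (cs m) m)))) {c a b : ℕ} {m₀ : ℕ}
    (hc : c ≤ cs m₀) (A : Fin c → Matrix (Fin a) (Fin b) ℤ)
    (hA : ∀ k i j, A k i j = 0 ∨ A k i j = 1) :
    ∃ F : ℂ → ℂ, NoDiv S F ∧ ∃ τ : ℝ, ∀ z : ℂ, τ < z.re → F z = netZeta A z := by
  obtain ⟨s, hs, hA', hmem⟩ := exists_mat A hA
  rw [hA', net_iff hS hs]
  refine sep (a := fun m => aa (cs m) m) (P := fun m => PP (cs m) m) norm_uu uu_zero ?_ ?_ hS ?_
    (m₀ := max m₀ (max a b)) ?_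
  · intro m
    rcases Nat.eq_zero_or_pos m with rfl | hm
    · exact Nat.zero_le _
    · have := h1 m hm
      change m ≤ cs m * m + cs m * (m * m)
      nlinarith [Nat.zero_le (cs m * (m * m))]
  · intro m m' hm
    exact pp_mono (hcs hm) hm
  · exact h.mono fun m hm => (mer_hring hS _ _).1 hm
  · exact hmem _ _ (hc.trans (hcs (le_max_left _ _)))
      ((le_max_left _ _).trans (le_max_right _ _)) ((le_max_right _ _).trans (le_max_right _ _))

/-- The converse. -/
theorem hring_of_net (hS : Tr S) {c m : ℕ} (h : ∀ A : Fin c → Matrix (Fin m) (Fin m) ℤ,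
    (∀ k i j, A k i j = 0 ∨ A k i j = 1) →
    ∃ F : ℂ → ℂ, NoDiv S F ∧ ∃ τ : ℝ, ∀ z : ℂ, τ < z.re → F z = netZeta A z) :
    Mer S (idN (maxS (HRing c m))) := by
  rw [mer_hring hS]
  have h1 : ∀ s ∈ PP c m, ∀ τ : ℝ, Cont S τ (uu s) := by
    intro s hs
    rw [← net_iff hS (bdd_of_mem hs)]
    refine h _ fun k i j => ?_
    change (if num k i j ∈ s then (1 : ℤ) else 0) = 0 ∨ (if num k i j ∈ s then (1 : ℤ) else 0) = 1
    split
    · exact Or.inr rfl
    · exact Or.inl rfl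
  intro τ
  have h2 : ∀ (a : ℤ), ∀ s ∈ PP c m, Cont S τ (tw a (uu s)) := fun a s hs =>
    (cont_tw_iff hS (uu_zero s) a).2 (h1 s hs) τ
  exact (h2 _ _ (Finset.empty_mem_powerset _)).add (conv_tw norm_uu _ _)
    (conv_sum _ _ fun s _ => conv_tw norm_uu _ s)
    (cont_sum _ _ (fun s _ => conv_tw norm_uu _ s) fun s hs => h2 _ s hs)

end cont

end Pool.Agent.H854.Z
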