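import Pool.Agent.H854.Z.Sys

/-!
# The Euler products of the members of the sequence
-/

set_option autoImplicit false

open MvPolynomial

noncomputable section

namespace Pool.Agent.H854.Z

open Q54.ZE

section

variable {F : Type} [Field F]

/-- The points of the hypersurface. -/
theorem card_hring [Finite F] (c m : ℕ) : Nat.card (HRing c m →+* F) =
    Nat.card F ^ Fintype.card (Eqn c m) *
      (Nat.card F ^ Nat.card (Var c m) + Nat.card (Ws F c m)) := by
  rw [← card_cover (F := F) (fun w e => aeval w (eqn e : MvPolynomial (Var c m) ℤ))]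
  refine Nat.card_congr ((quotHom _).trans (Equiv.subtypeEquivRight fun v => ?_))
  have h1 : ∀ e : Eqn c m, aeval v (rename (fun v => .inr (.inr v)) (eqn e) :
      MvPolynomial (Unit ⊕ (Eqn c m ⊕ Var c m)) ℤ) =
      aeval (fun i => v (.inr (.inr i))) (eqn e) := by
    intro e
    rw [aeval_rename]
    rfl
  have h2 : aeval v (hyper c m) = v (.inl ()) ^ 2 - v (.inl ()) -
      ∑ e : Eqn c m, v (.inr (.inl e)) * aeval (fun i => v (.inr (.inr i))) (eqn e) := by
    rw [hyper, map_sub, map_sub, map_pow, aeval_X, map_sum]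
    congr 1
    refine Finset.sum_congr rfl fun e _ => ?_
    rw [map_mul, aeval_X, h1]
  constructor
  · intro h
    rw [← h2]
    exact h _ rfl
  · rintro h g rfl
    rw [h2]
    exact h

/-- Extension by zero. -/
def ext {m : ℕ} (x : Fin m → F) (i : ℕ) : F := if h : i < m then x ⟨i, h⟩ else 0

theorem ext_fin {m : ℕ} (x : Fin m → F) (i : Fin m) : ext x i = x i := dif_pos i.2

theorem ext_of_lt {m : ℕ} (x : Fin m → F) {i : ℕ} (h : i < m) : ext x i = x ⟨i, h⟩ := dif_pos h

/-- The indices of the triples in `s` are bounded. -/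
def Bdd (s : Finset ℕ) (c a b : ℕ) : Prop := ∀ k i j, num k i j ∈ s → k < c ∧ i < a ∧ j < b

theorem num_unpair (r : ℕ) : num r.unpair.1 r.unpair.2.unpair.1 r.unpair.2.unpair.2 = r := by
  rw [num, Nat.pair_unpair, Nat.pair_unpair]

/-- The bilinear equations. -/
def Bil (s : Finset ℕ) (y z : ℕ → F) : Prop :=
  ∀ i, ∑ r ∈ s.filter (fun r => r.unpair.2.unpair.1 = i),
    z r.unpair.1 * y r.unpair.2.unpair.2 = 0

theorem ker_bil {s : Finset ℕ} {c a b : ℕ} (hs : Bdd s c a b) (y : Fin b → F) (z : Fin c → F) :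
    (∀ i : Fin a, ∑ j, combo F (mat s c a b) z i j * y j = 0) ↔ Bil s (ext y) (ext z) := by
  have h1 : ∀ i : Fin a, ∑ j, combo F (mat s c a b) z i j * y j =
      ∑ r ∈ s.filter (fun r => r.unpair.2.unpair.1 = (i : ℕ)),
        ext z r.unpair.1 * ext y r.unpair.2.unpair.2 := by
    intro i
    have h2 : ∀ j, combo F (mat s c a b) z i j * y j =
        ∑ k : Fin c, if num k i j ∈ s then z k * y j else 0 := by
      intro j
      change (∑ k, z k * (((if num k i j ∈ s then (1 : ℤ) else 0) : ℤ) : F)) * y j = _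
      rw [Finset.sum_mul]
      refine Finset.sum_congr rfl fun k _ => ?_
      split
      · rw [Int.cast_one, mul_one]
      · rw [Int.cast_zero, mul_zero, zero_mul]
    simp only [h2]
    rw [← Finset.sum_product', ← Finset.sum_filter]
    refine Finset.sum_bij (fun x _ => num x.2 i x.1) ?_ ?_ ?_ ?_
    · rintro ⟨j, k⟩ h
      rw [Finset.mem_filter] at h ⊢
      refine ⟨h.2, ?_⟩
      simp [num]
    · rintro ⟨j, k⟩ _ ⟨j', k'⟩ _ h
      have h' : Nat.pair k (Nat.pair i j) = Nat.pair k' (Nat.pair i j') := h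
      rw [Nat.pair_eq_pair, Nat.pair_eq_pair] at h'
      rw [Fin.ext h'.1, Fin.ext h'.2.2]
    · intro r hr
      rw [Finset.mem_filter] at hr
      have h3 := hs _ _ _ (by rw [num_unpair r]; exact hr.1)
      refine ⟨(⟨_, h3.2.2⟩, ⟨_, h3.1⟩), ?_, ?_⟩
      · rw [Finset.mem_filter]
        refine ⟨Finset.mem_univ _, ?_⟩
        change num r.unpair.1 i r.unpair.2.unpair.2 ∈ s
        rw [← hr.2, num_unpair]
        exact hr.1
      · change num r.unpair.1 i r.unpair.2.unpair.2 = r
        rw [← hr.2, num_unpair]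
    · rintro ⟨j, k⟩ _
      have h4 : (num k i j).unpair.1 = k := by simp [num]
      have h5 : (num k i j).unpair.2.unpair.2 = j := by simp [num]
      change z k * y j = ext z (num k i j).unpair.1 * ext y (num k i j).unpair.2.unpair.2
      rw [h4, h5, ext_fin, ext_fin]
  constructor
  · intro h i
    by_cases hi : i < a
    · rw [← h1 ⟨i, hi⟩]
      exact h _
    · refine Finset.sum_eq_zero fun r hr => absurd ?_ hi
      rw [Finset.mem_filter] at hr
      have h3 := hs _ _ _ (by rw [num_unpair r]; exact hr.1)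
      rw [← hr.2]
      exact h3.2.1
  · intro h i
    rw [h1]
    exact h i

theorem bil_congr {s : Finset ℕ} {c a b : ℕ} (hs : Bdd s c a b) {y z y' z' : ℕ → F}
    (hy : ∀ j < b, y j = y' j) (hz : ∀ k < c, z k = z' k) : Bil s y z ↔ Bil s y' z' := by
  refine forall_congr' fun i => ?_
  rw [Finset.sum_congr rfl fun r hr => ?_]
  rw [Finset.mem_filter] at hr
  have h3 := hs _ _ _ (by rw [num_unpair r]; exact hr.1)
  rw [hy _ h3.2.2, hz _ h3.1]

/-- Free variables. -/
theorem card_free [Finite F] {s : Finset ℕ} {c a b c' a' b' : ℕ} (hs : Bdd s c a b) (hc : c ≤ c')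
    (ha : a ≤ a') (hb : b ≤ b') : Nat.card (KerPairs F (mat s c' a' b')) =
      Nat.card F ^ (b' - b + (c' - c)) * Nat.card (KerPairs F (mat s c a b)) := by
  have hs' : Bdd s c' a' b' := fun k i j h =>
    ⟨(hs k i j h).1.trans_le hc, (hs k i j h).2.1.trans_le ha, (hs k i j h).2.2.trans_le hb⟩
  obtain ⟨d, rfl⟩ := Nat.exists_eq_add_of_le hc
  obtain ⟨e, rfl⟩ := Nat.exists_eq_add_of_le hb
  have h1 : ∀ (y : Fin (b + e) → F) (z : Fin (c + d) → F),
      (∀ i, ∑ j, combo F (mat s (c + d) a' (b + e)) z i j * y j = 0) ↔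
      ∀ i, ∑ j, combo F (mat s c a b) (fun k => z (Fin.castAdd d k)) i j *
        y (Fin.castAdd e j) = 0 := by
    intro y z
    rw [ker_bil hs', ker_bil hs (fun j => y (Fin.castAdd e j)) (fun k => z (Fin.castAdd d k))]
    refine bil_congr hs (fun j hj => ?_) (fun k hk => ?_)
    · rw [ext_of_lt y (by omega), ext_of_lt _ hj]
      rfl
    · rw [ext_of_lt z (by omega), ext_of_lt _ hk]
      rfl
  have eq : KerPairs F (mat s (c + d) a' (b + e)) ≃
      (KerPairs F (mat s c a b) × (Fin e → F)) × (Fin d → F) :=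
    { toFun := fun v => ((⟨(fun j => v.1.1 (Fin.castAdd e j), fun k => v.1.2 (Fin.castAdd d k)),
          (h1 v.1.1 v.1.2).1 v.2⟩, fun j => v.1.1 (Fin.natAdd b j)),
        fun k => v.1.2 (Fin.natAdd c k))
      invFun := fun x => ⟨(Fin.append x.1.1.1.1 x.1.2, Fin.append x.1.1.1.2 x.2), (h1 _ _).2 (by
        have h2 : (fun j : Fin b => Fin.append x.1.1.1.1 x.1.2 (Fin.castAdd e j)) = x.1.1.1.1 := by
          funext i
          exact Fin.append_left _ _ i
        have h3 : (fun k : Fin c => Fin.append x.1.1.1.2 x.2 (Fin.castAdd d k)) = x.1.1.1.2 := by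
          funext i
          exact Fin.append_left _ _ i
        intro i
        rw [h3]
        refine Eq.trans ?_ (x.1.1.2 i)
        exact Finset.sum_congr rfl fun j _ => congrArg (_ * ·) (congrFun h2 j))⟩
      left_inv := fun v => by
        apply Subtype.ext
        refine Prod.ext (funext fun i => ?_) (funext fun i => ?_)
        · refine Fin.addCases (fun j => ?_) (fun j => ?_) i
          · exact Fin.append_left _ _ j
          · exact Fin.append_right _ _ j
        · refine Fin.addCases (fun j => ?_) (fun j => ?_) i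
          · exact Fin.append_left _ _ j
          · exact Fin.append_right _ _ j
      right_inv := fun x => by
        refine Prod.ext (Prod.ext (Subtype.ext (Prod.ext ?_ ?_)) ?_) ?_
        · funext i
          exact Fin.append_left _ _ i
        · funext i
          exact Fin.append_left _ _ i
        · funext i
          exact Fin.append_right _ _ i
        · funext i
          exact Fin.append_right _ _ i }
  rw [Nat.card_congr eq, Nat.card_prod, Nat.card_prod, Nat.card_fun, Nat.card_fun, Nat.card_fin,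
    Nat.card_fin, Nat.add_sub_cancel_left, Nat.add_sub_cancel_left, pow_add]
  ring

end

/-- The coefficients of the logarithm of the Euler product of a ring. -/
def cf (A : Type) [CommRing A] : ℕ → ℂ := co (idN (maxS A))

section cf

variable (A : Type) [CommRing A] [Algebra ℤ A] [Algebra.FiniteType ℤ A]

theorem cf_mul (p n : ℕ) [Fact p.Prime] (hn : n ≠ 0) :
    (n : ℂ) * cf A (p ^ n) = Nat.card (A →+* GaloisField p n) := by
  have := finite_hom (F := GaloisField p n) A
  rw [← Nat.card_congr (ptsMax A)]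
  exact mul_co p n (isFin_maxS A) hn

theorem cf_zero {k : ℕ} (hk : ¬ ∃ p n : ℕ, p.Prime ∧ n ≠ 0 ∧ k = p ^ n) : cf A k = 0 :=
  co_eq_zero (isFin_maxS A) hk

theorem cf_zero_zero : cf A 0 = 0 := cf_zero A (by
  rintro ⟨p, n, hp, -, h⟩
  exact (pow_pos hp.pos n).ne h)

end cf

/-- The ring of the bilinear equations. -/
abbrev NR (s : Finset ℕ) (c a b : ℕ) : Type :=
  NRing (fun (i : Fin a) (j : Fin b) (k : Fin c) => mat s c a b k i j)

theorem card_nr {F : Type} [Field F] (s : Finset ℕ) (c a b : ℕ) :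
    Nat.card (NR s c a b →+* F) = Nat.card (KerPairs F (mat s c a b)) :=
  Nat.card_congr (netEquiv _)

/-- A bound for the indices. -/
def nv (s : Finset ℕ) : ℕ := s.sup id + 1

theorem lt_nv {t : Finset ℕ} {r : ℕ} (hr : r ∈ t) : r < nv t :=
  Nat.lt_succ_of_le (Finset.le_sup (f := id) hr)

theorem bdd_nv (s : Finset ℕ) : Bdd s (nv s) (nv s) (nv s) := by
  intro k i j h
  have h1 := lt_nv h
  have h2 : k ≤ num k i j := Nat.left_le_pair _ _
  have h3 : Nat.pair i j ≤ num k i j := Nat.right_le_pair _ _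
  have h4 : i ≤ Nat.pair i j := Nat.left_le_pair _ _
  have h5 : j ≤ Nat.pair i j := Nat.right_le_pair _ _
  omega

/-- The normalized coefficients of the Euler product of a set of triples. -/
def uu (t : Finset ℕ) : ℕ → ℂ := tw (-(nv t + nv t : ℕ)) (cf (NR t (nv t) (nv t) (nv t)))

theorem uu_zero (t : Finset ℕ) : uu t 0 = 0 := by
  rw [uu, tw, cf_zero_zero, mul_zero]

/-- The normalized coefficients are numbers of points. -/
theorem uu_mul {t : Finset ℕ} {c a b : ℕ} (ht : Bdd t c a b) (p n : ℕ) [hp : Fact p.Prime]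
    (hn : n ≠ 0) : (n : ℂ) * uu t (p ^ n) =
      ((p ^ n : ℕ) : ℂ) ^ (-(b + c : ℕ) : ℤ) * Nat.card (KerPairs (GaloisField p n) (mat t c a b)) := by
  have hq : ((p ^ n : ℕ) : ℂ) ≠ 0 := by exact_mod_cast (pow_pos hp.out.pos n).ne'
  have h1 := card_free (F := GaloisField p n) ht (le_max_left c (nv t)) (le_max_left a (nv t))
    (le_max_left b (nv t))
  have h2 := card_free (F := GaloisField p n) (bdd_nv t) (le_max_right c (nv t))
    (le_max_right a (nv t)) (le_max_right b (nv t))
  rw [h1, GaloisField.card p n hn] at h2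
  have h3 : ((p ^ n : ℕ) : ℂ) ^ ((max b (nv t) - b + (max c (nv t) - c) : ℕ) : ℤ) *
      Nat.card (KerPairs (GaloisField p n) (mat t c a b)) =
      ((p ^ n : ℕ) : ℂ) ^ ((max b (nv t) - nv t + (max c (nv t) - nv t) : ℕ) : ℤ) *
      Nat.card (KerPairs (GaloisField p n) (mat t (nv t) (nv t) (nv t))) := by
    rw [zpow_natCast, zpow_natCast]
    exact_mod_cast h2
  rw [uu, tw, mul_left_comm, cf_mul _ p n hn, card_nr]
  have h4 : ((p ^ n : ℕ) : ℂ) ^ (-((max b (nv t) + max c (nv t) : ℕ) : ℤ)) *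
      (((p ^ n : ℕ) : ℂ) ^ ((max b (nv t) - b + (max c (nv t) - c) : ℕ) : ℤ) *
      Nat.card (KerPairs (GaloisField p n) (mat t c a b))) =
      ((p ^ n : ℕ) : ℂ) ^ (-((max b (nv t) + max c (nv t) : ℕ) : ℤ)) *
      (((p ^ n : ℕ) : ℂ) ^ ((max b (nv t) - nv t + (max c (nv t) - nv t) : ℕ) : ℤ) *
      Nat.card (KerPairs (GaloisField p n) (mat t (nv t) (nv t) (nv t)))) := by rw [h3]
  rw [← mul_assoc, ← mul_assoc, ← zpow_add₀ hq, ← zpow_add₀ hq] at h4
  have e1 : (-((max b (nv t) + max c (nv t) : ℕ) : ℤ)) +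
      ((max b (nv t) - b + (max c (nv t) - c) : ℕ) : ℤ) = -((b + c : ℕ) : ℤ) := by omega
  have e2 : (-((max b (nv t) + max c (nv t) : ℕ) : ℤ)) +
      ((max b (nv t) - nv t + (max c (nv t) - nv t) : ℕ) : ℤ) = -((nv t + nv t : ℕ) : ℤ) := by
    omega
  rw [e1, e2] at h4
  exact h4.symm

theorem norm_uu (t : Finset ℕ) (k : ℕ) (_ : k ≠ 0) : ‖uu t k‖ ≤ 1 := by
  by_cases h : ∃ p n : ℕ, p.Prime ∧ n ≠ 0 ∧ k = p ^ n
  · obtain ⟨p, n, hp, hn, rfl⟩ := h
    have : Fact p.Prime := ⟨hp⟩
    have h1 := uu_mul (bdd_nv t) p n hn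
    have hq : (0 : ℝ) < ((p ^ n : ℕ) : ℝ) := by exact_mod_cast pow_pos hp.pos n
    have h2 : (Nat.card (KerPairs (GaloisField p n) (mat t (nv t) (nv t) (nv t))) : ℝ) ≤
        ((p ^ n : ℕ) : ℝ) ^ (nv t + nv t) := by
      have h3 : Nat.card (KerPairs (GaloisField p n) (mat t (nv t) (nv t) (nv t))) ≤
          Nat.card ((Fin (nv t) → GaloisField p n) × (Fin (nv t) → GaloisField p n)) :=
        Nat.card_le_card_of_injective _ Subtype.val_injective
      rw [Nat.card_prod, Nat.card_fun, Nat.card_fin, GaloisField.card p n hn, ← pow_add] at h3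
      exact_mod_cast h3
    have h4 := congrArg norm h1
    rw [norm_mul, norm_mul, norm_zpow, Complex.norm_natCast, Complex.norm_natCast,
      Complex.norm_natCast] at h4
    have h5 : (n : ℝ) * ‖uu t (p ^ n)‖ ≤ 1 := by
      rw [h4, zpow_neg, zpow_natCast, inv_mul_le_iff₀ (by positivity), mul_one]
      exact h2
    have h6 : (1 : ℝ) ≤ n := by exact_mod_cast Nat.one_le_iff_ne_zero.2 hn
    nlinarith [norm_nonneg (uu t (p ^ n))]
  · rw [uu, tw, cf_zero _ h, mul_zero, norm_zero]
    exact zero_le_one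

end Pool.Agent.H854.Z
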