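import Pool.Agent.H854.Z.Glue

/-!
# Separation of the factors of a product of Euler products
-/

set_option autoImplicit false

open Complex Filter Topology

noncomputable section

namespace Pool.Agent.H854.Z

open Q54.ZE (Tr NoDiv)

variable {S : Set ℂ} {σ : ℝ}

theorem conv_zero : Conv 0 := ⟨0, fun s _ => by
  have : LSeriesSummable (0 : ℕ → ℂ) s := LSeriesSummable_zero
  exact this⟩

theorem cont_zero : Cont S σ 0 := cont_of_summable fun s _ => LSeriesSummable_zero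

theorem conv_sum {I : Type} (T : Finset I) (f : I → ℕ → ℂ) (h : ∀ i ∈ T, Conv (f i)) :
    Conv (∑ i ∈ T, f i) := by
  classical
  induction T using Finset.induction_on with
  | empty => rw [Finset.sum_empty]; exact conv_zero
  | insert a T ha ih =>
    rw [Finset.sum_insert ha]
    exact (h a (Finset.mem_insert_self a T)).add (ih fun i hi => h i (Finset.mem_insert_of_mem hi))

theorem cont_sum {I : Type} (T : Finset I) (f : I → ℕ → ℂ) (hc : ∀ i ∈ T, Conv (f i))
    (h : ∀ i ∈ T, Cont S σ (f i)) : Cont S σ (∑ i ∈ T, f i) := by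
  classical
  induction T using Finset.induction_on with
  | empty => rw [Finset.sum_empty]; exact cont_zero
  | insert a T ha ih =>
    rw [Finset.sum_insert ha]
    exact Cont.add (hc a (Finset.mem_insert_self a T))
      (conv_sum T f fun i hi => hc i (Finset.mem_insert_of_mem hi))
      (h a (Finset.mem_insert_self a T))
      (ih (fun i hi => hc i (Finset.mem_insert_of_mem hi))
        fun i hi => h i (Finset.mem_insert_of_mem hi))

/-- The number of a finite set. -/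
def bin (s : Finset ℕ) : ℕ := ∑ r ∈ s, 2 ^ r

theorem bin_injective : Function.Injective bin := Finset.geomSum_injective le_rfl

theorem bin_empty : bin ∅ = 0 := rfl

variable (u : Finset ℕ → ℕ → ℂ)

/-- The series of a member of the sequence. -/
def ser (a : ℕ) (P : Finset (Finset ℕ)) (m : ℕ) : ℕ → ℂ :=
  tw (a : ℤ) (u ∅) + ∑ s ∈ P, tw (-((m : ℤ) * bin s)) (u s)

variable {u} (h1 : ∀ s k, k ≠ 0 → ‖u s k‖ ≤ 1)

include h1

theorem norm_tw_le (a b : ℤ) (hab : a ≤ b) (s : Finset ℕ) (k : ℕ) (hk : k ≠ 0) :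
    ‖tw a (u s) k‖ ≤ (k : ℝ) ^ b := by
  have hk' : (1 : ℝ) ≤ k := by exact_mod_cast Nat.one_le_iff_ne_zero.2 hk
  rw [tw, norm_mul, norm_zpow, Complex.norm_natCast]
  calc (k : ℝ) ^ a * ‖u s k‖ ≤ (k : ℝ) ^ a * 1 :=
        mul_le_mul_of_nonneg_left (h1 s k hk) (by positivity)
    _ = (k : ℝ) ^ a := mul_one _
    _ ≤ (k : ℝ) ^ b := zpow_le_zpow_right₀ hk' hab

theorem conv_tw (a : ℤ) (s : Finset ℕ) : Conv (tw a (u s)) :=
  ⟨a + 1, fun z hz => cont_of_le (fun k hk => norm_tw_le h1 a a le_rfl s k hk) z hz⟩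

theorem cont_tw_of_le {a b : ℤ} (hab : a ≤ b) (s : Finset ℕ) : Cont S (b + 1) (tw a (u s)) :=
  cont_of_summable fun z hz => cont_of_le (fun k hk => norm_tw_le h1 a b hab s k hk) z hz

theorem conv_ser (a : ℕ) (P : Finset (Finset ℕ)) (m : ℕ) : Conv (ser u a P m) :=
  (conv_tw h1 _ _).add (conv_sum _ _ fun s _ => conv_tw h1 _ s)

omit h1 in
theorem untw (h0 : ∀ s, u s 0 = 0) (hS : Tr S) {a : ℤ} {s : Finset ℕ}
    (h : Cont S σ (tw a (u s))) : Cont S (σ - a) (u s) := by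
  have h2 := h.tw hS (-a)
  rw [tw_tw (h0 s), neg_add_cancel, tw_zero, Int.cast_neg, ← sub_eq_add_neg] at h2
  exact h2

variable (h0 : ∀ s, u s 0 = 0) {a : ℕ → ℕ} (ha : ∀ m, m ≤ a m) {P : ℕ → Finset (Finset ℕ)}

include h0 ha

theorem sep_empty (hS : Tr S)
    (h : ∃ᶠ m in atTop, ∀ σ : ℝ, Cont S σ (ser u (a m) (P m) m)) (σ : ℝ) :
    Cont S σ (u ∅) := by
  obtain ⟨N, hN⟩ := exists_nat_ge (1 - σ)
  obtain ⟨m, hm, h2⟩ := frequently_atTop.1 h N
  have h3 : Cont S ((0 : ℤ) + 1) (∑ s ∈ P m, tw (-((m : ℤ) * bin s)) (u s)) :=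
    cont_sum _ _ (fun s _ => conv_tw h1 _ s) fun s _ => cont_tw_of_le h1 (by
      have : (0 : ℤ) ≤ (m : ℤ) * bin s := by positivity
      linarith) s
  have h4 := (h2 ((0 : ℤ) + 1)).sub (conv_ser h1 _ _ m) (conv_sum _ _ fun s _ => conv_tw h1 _ s) h3
  rw [ser, add_sub_cancel_right] at h4
  refine (untw h0 hS h4).mono ?_
  have h5 : (N : ℝ) ≤ m := by exact_mod_cast hm
  have h6 : (m : ℝ) ≤ a m := by exact_mod_cast ha m
  push_cast
  linarith

/-- The factors can be recovered from infinitely many products. -/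
theorem sep (hP : Monotone P) (hS : Tr S)
    (h : ∃ᶠ m in atTop, ∀ σ : ℝ, Cont S σ (ser u (a m) (P m) m)) {m₀ : ℕ} {s : Finset ℕ}
    (hs : s ∈ P m₀) : ∀ σ : ℝ, Cont S σ (u s) := by
  obtain ⟨n, hn⟩ : ∃ n, bin s = n := ⟨_, rfl⟩
  induction n using Nat.strong_induction_on generalizing s m₀ with
  | _ n ih =>
  subst hn
  intro σ
  obtain ⟨N, hN⟩ := exists_nat_ge (1 - σ)
  obtain ⟨m, hm, h2⟩ := frequently_atTop.1 h (max N m₀)
  have hs' : s ∈ P m := hP ((le_max_right _ _).trans hm) hs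
  set b : ℤ := -((m : ℤ) * (bin s + 1)) with hb
  have h3 : Cont S (b + 1) (∑ t ∈ (P m).erase s, tw (-((m : ℤ) * bin t)) (u t)) := by
    refine cont_sum _ _ (fun t _ => conv_tw h1 _ t) fun t ht => ?_
    rw [Finset.mem_erase] at ht
    rcases lt_or_ge (bin t) (bin s) with h4 | h4
    · have h5 := (ih _ h4 ht.2 rfl (b + 1 - (-((m : ℤ) * bin t) : ℤ))).tw hS (-((m : ℤ) * bin t))
      rwa [sub_add_cancel] at h5
    · refine cont_tw_of_le h1 ?_ t
      have h5 : bin s + 1 ≤ bin t :=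
        lt_of_le_of_ne h4 fun h6 => ht.1 (bin_injective h6.symm)
      have h6 : ((bin s : ℤ) + 1) ≤ bin t := by exact_mod_cast h5
      rw [hb]
      nlinarith [(Int.natCast_nonneg m : (0 : ℤ) ≤ m)]
  have h4 : ser u (a m) (P m) m = (tw (a m : ℤ) (u ∅) + ∑ t ∈ (P m).erase s,
      tw (-((m : ℤ) * bin t)) (u t)) + tw (-((m : ℤ) * bin s)) (u s) := by
    rw [ser, ← Finset.sum_erase_add _ _ hs', add_assoc]
  have h5 := (sep_empty h1 h0 ha hS h (b + 1 - (a m : ℤ))).tw hS (a m : ℤ)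
  rw [sub_add_cancel] at h5
  have h6 := (h2 (b + 1)).sub (conv_ser h1 _ _ m)
    ((conv_tw h1 _ _).add (conv_sum _ _ fun t _ => conv_tw h1 _ t))
    (h5.add (conv_tw h1 _ _) (conv_sum _ _ fun t _ => conv_tw h1 _ t) h3)
  rw [h4, add_sub_cancel_left] at h6
  refine (untw h0 hS h6).mono ?_
  have h7 : (N : ℝ) ≤ m := by exact_mod_cast (le_max_left _ _).trans hm
  rw [hb]
  push_cast
  nlinarith

end Pool.Agent.H854.Z
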