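import Pool.Agent.H854.Z.HDefs

/-!
# The hypersurfaces are smooth over the integers and cubic
-/

set_option autoImplicit false

open MvPolynomial

noncomputable section

namespace Pool.Agent.H854.Z

/-- The polynomial `x ^ 2 - x - ∑ t_e a_e`. -/
def cov {R : Type} [CommRing R] {E V : Type} [Fintype E] (a : E → MvPolynomial V R) :
    MvPolynomial (Unit ⊕ (E ⊕ V)) R :=
  X (.inl ()) ^ 2 - X (.inl ()) -
    ∑ e, X (.inr (.inl e)) * rename (fun v => .inr (.inr v)) (a e)

/-- The hypersurface `x ^ 2 - x = ∑ t_e a_e` is smooth. -/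
theorem smooth_cov {R : Type} [CommRing R] {E V : Type} [Fintype E] [Finite V]
    (a : E → MvPolynomial V R) :
    Algebra.Smooth R (MvPolynomial (Unit ⊕ (E ⊕ V)) R ⧸ Ideal.span {cov a}) where
  formallySmooth := by
    apply Algebra.FormallySmooth.of_comp_surjective
    intro B _ _ I hI g
    have hsur : Function.Surjective (Ideal.Quotient.mkₐ R I) := Ideal.Quotient.mkₐ_surjective R I
    choose v hv using fun s => hsur (g (Ideal.Quotient.mk _ (X s)))
    have hval : ∀ v : Unit ⊕ (E ⊕ V) → B, aeval v (cov a) = v (.inl ()) ^ 2 - v (.inl ()) -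
        ∑ e, v (.inr (.inl e)) * aeval (fun i => v (.inr (.inr i))) (a e) := by
      intro v
      rw [cov, map_sub, map_sub, map_pow, aeval_X, map_sum]
      congr 1
      refine Finset.sum_congr rfl fun e _ => ?_
      rw [map_mul, aeval_X, aeval_rename]
      rfl
    have h1 : (Ideal.Quotient.mkₐ R I).comp (aeval v) =
        g.comp (Ideal.Quotient.mkₐ R (Ideal.span {cov a})) := by
      apply MvPolynomial.algHom_ext
      intro s
      change Ideal.Quotient.mkₐ R I (aeval v (X s)) = _
      rw [aeval_X]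
      exact hv s
    have h2 : Ideal.Quotient.mkₐ R I (aeval v (cov a)) = 0 := by
      have h3 := congrArg (fun f : MvPolynomial (Unit ⊕ (E ⊕ V)) R →ₐ[R] B ⧸ I => f (cov a)) h1
      change Ideal.Quotient.mkₐ R I (aeval v (cov a)) = g (Ideal.Quotient.mk _ (cov a)) at h3
      rw [Ideal.Quotient.eq_zero_iff_mem.mpr (Ideal.mem_span_singleton_self _), map_zero] at h3
      exact h3
    have h4 : aeval v (cov a) ∈ I := Ideal.Quotient.eq_zero_iff_mem.mp h2
    set d : B := aeval v (cov a) with hd
    have h5 : d * d = 0 := by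
      have : d * d ∈ I ^ 2 := by
        rw [pow_two]
        exact Ideal.mul_mem_mul h4 h4
      rw [hI] at this
      exact this
    have h6 := hval v
    rw [← hd] at h6
    set y : B := v (.inl ()) with hy
    set t : E → B := fun e => v (.inr (.inl e)) with ht
    set b : E → B := fun e => aeval (fun i => v (.inr (.inr i))) (a e) with hb
    let w : Unit ⊕ (E ⊕ V) → B := Sum.elim (fun _ => y - d * (2 * y - 1))
      (Sum.elim (fun e => t e - 4 * d * t e) fun i => v (.inr (.inr i)))
    have h7 : aeval w (cov a) = 0 := by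
      rw [hval]
      have h8 : ∑ e, w (.inr (.inl e)) * aeval (fun i => w (.inr (.inr i))) (a e) =
          (1 - 4 * d) * ∑ e, t e * b e := by
        rw [Finset.mul_sum]
        refine Finset.sum_congr rfl fun e _ => ?_
        change (t e - 4 * d * t e) * b e = _
        ring
      have h9 : ∑ e, v (.inr (.inl e)) * aeval (fun i => v (.inr (.inr i))) (a e) =
          ∑ e, t e * b e := rfl
      rw [h8]
      rw [h9] at h6
      change (y - d * (2 * y - 1)) ^ 2 - (y - d * (2 * y - 1)) - (1 - 4 * d) * ∑ e, t e * b e = 0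
      have h10 : ∑ e, t e * b e = y ^ 2 - y - d := by
        rw [h6]
        ring
      rw [h10]
      linear_combination ((2 * y - 1) ^ 2 - 4) * h5
    refine ⟨Ideal.Quotient.liftₐ _ (aeval w) ?_, ?_⟩
    · intro p hp
      have h9 : Ideal.span {cov a} ≤
          RingHom.ker (aeval w : MvPolynomial (Unit ⊕ (E ⊕ V)) R →ₐ[R] B) := by
        rw [Ideal.span_le, Set.singleton_subset_iff]
        exact h7
      exact h9 hp
    · have hd0 : Ideal.Quotient.mkₐ R I d = 0 := h2
      apply Ideal.Quotient.algHom_ext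
      apply MvPolynomial.algHom_ext
      intro s
      change Ideal.Quotient.mkₐ R I (aeval w (X s)) = g (Ideal.Quotient.mk _ (X s))
      rw [aeval_X, ← hv]
      rcases s with s | e | i
      · change Ideal.Quotient.mkₐ R I (y - d * (2 * y - 1)) = Ideal.Quotient.mkₐ R I y
        rw [map_sub, map_mul, hd0, zero_mul, sub_zero]
      · change Ideal.Quotient.mkₐ R I (t e - 4 * d * t e) = Ideal.Quotient.mkₐ R I (t e)
        rw [map_sub, map_mul, map_mul, hd0, mul_zero, zero_mul, sub_zero]
      · rfl
  finitePresentation :=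
    Algebra.FinitePresentation.quotient ⟨{cov a}, by rw [Finset.coe_singleton]⟩

theorem smooth_hring (c m : ℕ) : Algebra.Smooth ℤ (HRing c m) :=
  smooth_cov (R := ℤ) (fun e : Eqn c m => eqn e)

theorem deg_X {σ : Type} (i : σ) : (X i : MvPolynomial σ ℤ).totalDegree ≤ 1 :=
  (totalDegree_X i).le

theorem deg_eqn {c m : ℕ} (e : Eqn c m) : (eqn e : MvPolynomial (Var c m) ℤ).totalDegree ≤ 2 := by
  have hm : ∀ i j : Var c m, (X i * X j : MvPolynomial (Var c m) ℤ).totalDegree ≤ 2 := fun i j =>
    (totalDegree_mul _ _).trans (add_le_add (deg_X i) (deg_X j))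
  rcases e with ⟨k, j⟩ | i | r | b
  · exact (totalDegree_sub _ _).trans (max_le ((deg_X _).trans one_le_two) (hm _ _))
  · refine totalDegree_finsetSum_le fun k _ => totalDegree_finsetSum_le fun j _ => hm _ _
  · refine (totalDegree_sub _ _).trans (max_le ?_ ((deg_X _).trans one_le_two))
    exact (totalDegree_pow _ _).trans (Nat.mul_le_mul_left 2 (deg_X _))
  · exact hm _ _

theorem deg_hyper (c m : ℕ) : (hyper c m).totalDegree ≤ 3 := by
  refine (totalDegree_sub _ _).trans (max_le ((totalDegree_sub _ _).trans (max_le ?_ ?_)) ?_)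
  · exact ((totalDegree_pow _ _).trans (Nat.mul_le_mul_left 2 (deg_X _))).trans (by norm_num)
  · exact (deg_X _).trans (by norm_num)
  · refine totalDegree_finsetSum_le fun e _ => (totalDegree_mul _ _).trans ?_
    have h1 := (totalDegree_rename_le (fun v => (Sum.inr (Sum.inr v) : Unit ⊕ (Eqn c m ⊕ Var c m)))
      (eqn e : MvPolynomial (Var c m) ℤ)).trans (deg_eqn e)
    have h2 := deg_X (Sum.inr (Sum.inl e) : Unit ⊕ (Eqn c m ⊕ Var c m))
    omega

end Pool.Agent.H854.Z
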