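import Pool.Agent.H854.Z.HDefs
import Pool.Agent.H854.Z.Cnt
import Pool.Agent.H854.Z.Sep
import Pool.Graph.R_pool_sql_team_seeded_3997aac3.Q54.ZE.Net

/-!
# Counting the solutions of the universal system
-/

set_option autoImplicit false

open MvPolynomial

noncomputable section

namespace Pool.Agent.H854.Z

open Q54.ZE (combo KerPairs)

/-- The matrices with entries `0` and `1` given by a set of triples. -/
def mat (s : Finset ℕ) (c a b : ℕ) : Fin c → Matrix (Fin a) (Fin b) ℤ :=
  fun k => Matrix.of fun i j => if num k i j ∈ s then 1 else 0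

variable {F : Type} [Field F]

/-- The solutions of the universal system. -/
abbrev Ws (F : Type) [Field F] (c m : ℕ) : Type :=
  {w : Var c m → F // ∀ e, aeval w (eqn e : MvPolynomial (Var c m) ℤ) = 0}

section eval

variable {c m : ℕ} (w : Var c m → F)

/-- The numbering of the triples. -/
def numEmb (c m : ℕ) : Tri c m ↪ ℕ where
  toFun r := num r.1 r.2.1 r.2.2
  inj' := by
    rintro ⟨k, i, j⟩ ⟨k', i', j'⟩ h
    have h' : Nat.pair k (Nat.pair i j) = Nat.pair k' (Nat.pair i' j') := h
    rw [Nat.pair_eq_pair, Nat.pair_eq_pair] at h'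
    obtain ⟨h1, h2, h3⟩ := h'
    rw [Fin.ext h1, Fin.ext h2, Fin.ext h3]

theorem mem_ws : (∀ e, aeval w (eqn e : MvPolynomial (Var c m) ℤ) = 0) ↔
    (∀ k j, w (.inr (.inr (.inl (k, j)))) = w (.inr (.inl k)) * w (.inl j)) ∧
    (∀ i : Fin m, ∑ k : Fin c, ∑ j : Fin m, w (.inr (.inr (.inr (.inl (k, i, j))))) *
      w (.inr (.inr (.inl (k, j)))) = 0) ∧
    (∀ r : Tri c m, w (.inr (.inr (.inr (.inl r)))) = 0 ∨ w (.inr (.inr (.inr (.inl r)))) = 1) ∧
    ∀ b : (Σ r : Tri c m, Fin (wgt r)), w (.inr (.inr (.inr (.inl b.1)))) = 1 →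
      w (.inr (.inr (.inr (.inr b)))) = 0 := by
  have hidem : ∀ c : F, c ^ 2 - c = 0 ↔ c = 0 ∨ c = 1 := by
    intro c
    have : c ^ 2 - c = c * (c - 1) := by ring
    rw [this, mul_eq_zero, sub_eq_zero]
  have e1 : ∀ k j, aeval w (eqn (.inl (k, j)) : MvPolynomial (Var c m) ℤ) =
      w (.inr (.inr (.inl (k, j)))) - w (.inr (.inl k)) * w (.inl j) := by
    intro k j
    rw [eqn, map_sub, map_mul, vp, vz, vy, aeval_X, aeval_X, aeval_X]
  have e2 : ∀ i, aeval w (eqn (.inr (.inl i)) : MvPolynomial (Var c m) ℤ) =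
      ∑ k : Fin c, ∑ j : Fin m, w (.inr (.inr (.inr (.inl (k, i, j))))) *
      w (.inr (.inr (.inl (k, j)))) := by
    intro i
    rw [eqn, map_sum]
    refine Finset.sum_congr rfl fun k _ => ?_
    rw [map_sum]
    refine Finset.sum_congr rfl fun j _ => ?_
    rw [map_mul, va, vp, aeval_X, aeval_X]
  have e3 : ∀ r, aeval w (eqn (.inr (.inr (.inl r))) : MvPolynomial (Var c m) ℤ) =
      w (.inr (.inr (.inr (.inl r)))) ^ 2 - w (.inr (.inr (.inr (.inl r)))) := by
    intro r
    rw [eqn, map_sub, map_pow, va, aeval_X]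
  have e4 : ∀ b, aeval w (eqn (.inr (.inr (.inr b))) : MvPolynomial (Var c m) ℤ) =
      w (.inr (.inr (.inr (.inl b.1)))) * w (.inr (.inr (.inr (.inr b)))) := by
    intro b
    rw [eqn, map_mul, va, vu, aeval_X, aeval_X]
  constructor
  · intro h
    refine ⟨fun k j => ?_, fun i => ?_, fun r => ?_, fun b hb => ?_⟩
    · have h1 := h (.inl (k, j))
      rw [e1] at h1
      exact sub_eq_zero.1 h1
    · rw [← e2]
      exact h _
    · have h1 := h (.inr (.inr (.inl r)))
      rw [e3] at h1
      exact (hidem _).1 h1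
    · have h1 := h (.inr (.inr (.inr b)))
      rwa [e4, hb, one_mul] at h1
  · rintro ⟨h1, h2, h3, h4⟩ (⟨k, j⟩ | i | r | b)
    · rw [e1]
      exact sub_eq_zero.2 (h1 k j)
    · rw [e2]
      exact h2 i
    · rw [e3]
      exact (hidem _).2 (h3 r)
    · rw [e4]
      rcases h3 b.1 with h5 | h5
      · rw [h5, zero_mul]
      · rw [h4 b h5, mul_zero]

end eval

/-- The values of the variables `u_rl` if `a_r = 1` for `r` in `s`. -/
abbrev Us (F : Type) [Field F] {c m : ℕ} (s : Finset (Tri c m)) : Type :=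
  {u : (Σ r : Tri c m, Fin (wgt r)) → F // ∀ b, b.1 ∈ s → u b = 0}

open Classical in
/-- The set of the triples with `a_r = 1`. -/
def supp {c m : ℕ} (w : Ws F c m) : Finset (Tri c m) :=
  Finset.univ.filter fun r => w.1 (.inr (.inr (.inr (.inl r)))) = 1

open Classical in
theorem mem_supp {c m : ℕ} (w : Ws F c m) (r : Tri c m) :
    r ∈ supp w ↔ w.1 (.inr (.inr (.inr (.inl r)))) = 1 := by
  unfold supp
  exact Finset.mem_filter.trans (and_iff_right (Finset.mem_univ r))

open Classical in
/-- The solution given by a set `s`, vectors `y` and `z` and the values of the variables `u_rl`. -/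
def mk {c m : ℕ} (s : Finset (Tri c m)) (y : Fin m → F) (z : Fin c → F)
    (u : (Σ r : Tri c m, Fin (wgt r)) → F) : Var c m → F
  | .inl j => y j
  | .inr (.inl k) => z k
  | .inr (.inr (.inl (k, j))) => z k * y j
  | .inr (.inr (.inr (.inl r))) => if r ∈ s then 1 else 0
  | .inr (.inr (.inr (.inr b))) => u b

section

variable {c m : ℕ} (s : Finset (Tri c m))

theorem mk_c (y : Fin m → F) (z : Fin c → F) (u : (Σ r : Tri c m, Fin (wgt r)) → F)
    (r : Tri c m) : mk s y z u (.inr (.inr (.inr (.inl r)))) = 1 ↔ r ∈ s := by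
  classical
  change (if r ∈ s then (1 : F) else 0) = 1 ↔ _
  by_cases h : r ∈ s
  · simp [h]
  · simp [h]

open Classical in
/-- The bilinear equations for the matrices with entries `0` and `1`. -/
theorem ker_iff (y : Fin m → F) (z : Fin c → F) (i : Fin m) :
    ∑ j, combo F (mat (s.map (numEmb c m)) c m m) z i j * y j =
      ∑ k : Fin c, ∑ j : Fin m, (if (k, i, j) ∈ s then (1 : F) else 0) * (z k * y j) := by
  have h : ∀ k j, ((mat (s.map (numEmb c m)) c m m k i j : ℤ) : F) =
      if (k, i, j) ∈ s then (1 : F) else 0 := by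
    intro k j
    have h1 : num k i j ∈ s.map (numEmb c m) ↔ (k, i, j) ∈ s :=
      Finset.mem_map' (numEmb c m) (a := (k, i, j))
    change (((if num k i j ∈ s.map (numEmb c m) then (1 : ℤ) else 0) : ℤ) : F) = _
    by_cases h2 : (k, i, j) ∈ s
    · rw [if_pos (h1.2 h2), if_pos h2, Int.cast_one]
    · rw [if_neg fun h3 => h2 (h1.1 h3), if_neg h2, Int.cast_zero]
  rw [Finset.sum_comm]
  refine Finset.sum_congr rfl fun j _ => ?_
  change (∑ k, z k * ((mat (s.map (numEmb c m)) c m m k i j : ℤ) : F)) * y j = _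
  rw [Finset.sum_mul]
  refine Finset.sum_congr rfl fun k _ => ?_
  rw [h]
  ring

/-- The fibres of `supp`. -/
def fibEquiv : {w : Ws F c m // supp w = s} ≃
    KerPairs F (mat (s.map (numEmb c m)) c m m) × Us F s where
  toFun w := (⟨(fun j => w.1.1 (.inl j), fun k => w.1.1 (.inr (.inl k))), fun i => by
      classical
      have h := (mem_ws w.1.1).1 w.1.2
      rw [ker_iff]
      refine Eq.trans ?_ (h.2.1 i)
      refine Finset.sum_congr rfl fun k _ => Finset.sum_congr rfl fun j _ => ?_
      rw [h.1 k j]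
      congr 1
      have h1 := mem_supp w.1 (k, i, j)
      rw [w.2] at h1
      by_cases h2 : (k, i, j) ∈ s
      · rw [if_pos h2, h1.1 h2]
      · rw [if_neg h2]
        rcases h.2.2.1 (k, i, j) with h3 | h3
        · exact h3.symm
        · exact absurd (h1.2 h3) h2⟩,
    ⟨fun b => w.1.1 (.inr (.inr (.inr (.inr b)))), fun b hb => by
      refine ((mem_ws w.1.1).1 w.1.2).2.2.2 b ?_
      rw [← mem_supp, w.2]
      exact hb⟩)
  invFun x := ⟨⟨mk s x.1.1.1 x.1.1.2 x.2.1, (mem_ws _).2 ⟨fun k j => rfl, fun i => by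
      classical
      have h := x.1.2 i
      rw [ker_iff] at h
      exact h, fun r => by
      classical
      change (if r ∈ s then (1 : F) else 0) = 0 ∨ (if r ∈ s then (1 : F) else 0) = 1
      by_cases h : r ∈ s
      · exact Or.inr (if_pos h)
      · exact Or.inl (if_neg h), fun b hb =>
      x.2.2 b ((mk_c s _ _ _ b.1).1 hb)⟩⟩, by
    ext r
    rw [mem_supp, mk_c]⟩
  left_inv w := by
    apply Subtype.ext
    apply Subtype.ext
    have h := (mem_ws w.1.1).1 w.1.2
    funext i
    rcases i with j | k | ⟨k, j⟩ | r | b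
    · rfl
    · rfl
    · exact (h.1 k j).symm
    · classical
      change (if r ∈ s then (1 : F) else 0) = w.1.1 (.inr (.inr (.inr (.inl r))))
      by_cases hr : r ∈ s
      · rw [if_pos hr]
        rw [← w.2, mem_supp] at hr
        exact hr.symm
      · rw [if_neg hr]
        rw [← w.2, mem_supp] at hr
        rcases h.2.2.1 r with h1 | h1
        · exact h1.symm
        · exact absurd h1 hr
    · rfl
  right_inv x := rfl

end

/-- The number of the solutions of the universal system. -/
theorem card_ws [Finite F] (c m : ℕ) : Nat.card (Ws F c m) =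
    ∑ s : Finset (Tri c m), Nat.card (KerPairs F (mat (s.map (numEmb c m)) c m m)) *
      Nat.card (Us F s) := by
  rw [Nat.card_congr (Equiv.sigmaFiberEquiv (supp (F := F) (c := c) (m := m))).symm,
    Nat.card_sigma]
  refine Finset.sum_congr rfl fun s _ => ?_
  rw [Nat.card_congr (fibEquiv s), Nat.card_prod]

theorem prod_aux (q : ℕ) {c m : ℕ} (s : Finset (Tri c m)) [DecidablePred (· ∈ s)] :
    (∏ r : Tri c m, if r ∈ s then 1 else q ^ wgt r) * q ^ (m * bin (s.map (numEmb c m))) =
      q ^ (m * bin (Finset.univ.map (numEmb c m))) := by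
  have h0 : ∀ s : Finset (Tri c m), m * bin (s.map (numEmb c m)) = ∑ r ∈ s, wgt r := by
    intro s
    rw [bin, Finset.mul_sum, Finset.sum_map]
    rfl
  have h2 : q ^ (m * bin (s.map (numEmb c m))) =
      ∏ r : Tri c m, if r ∈ s then q ^ wgt r else 1 := by
    rw [h0, ← Finset.prod_filter, ← Finset.prod_pow_eq_pow_sum]
    apply Finset.prod_congr
    · ext r
      simp
    · intro r _
      rfl
  rw [h2, ← Finset.prod_mul_distrib, h0, ← Finset.prod_pow_eq_pow_sum]
  refine Finset.prod_congr rfl fun r _ => ?_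
  by_cases h : r ∈ s <;> simp [h]

/-- The number of the values of the variables `u_rl`. -/
theorem card_us {c m : ℕ} (s : Finset (Tri c m)) :
    Nat.card (Us F s) * Nat.card F ^ (m * bin (s.map (numEmb c m))) =
      Nat.card F ^ (m * bin (Finset.univ.map (numEmb c m))) := by
  classical
  have e : Us F s ≃ ∀ r : Tri c m, {v : Fin (wgt r) → F // r ∈ s → v = 0} :=
    { toFun := fun u r => ⟨fun j => u.1 ⟨r, j⟩, fun hr => funext fun j => u.2 ⟨r, j⟩ hr⟩
      invFun := fun v => ⟨fun a => (v a.1).1 a.2, fun a ha => congrFun ((v a.1).2 ha) a.2⟩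
      left_inv := fun u => rfl
      right_inv := fun v => rfl }
  rw [Nat.card_congr e, Nat.card_pi, ← prod_aux (Nat.card F) s]
  congr 1
  refine Finset.prod_congr rfl fun r _ => ?_
  by_cases h : r ∈ s
  · rw [if_pos h]
    have : Subsingleton {v : Fin (wgt r) → F // r ∈ s → v = 0} :=
      ⟨fun a b => Subtype.ext ((a.2 h).trans (b.2 h).symm)⟩
    have : Nonempty {v : Fin (wgt r) → F // r ∈ s → v = 0} := ⟨⟨0, fun _ => rfl⟩⟩
    exact Nat.card_unique
  · rw [if_neg h, Nat.card_congr (Equiv.subtypeUnivEquiv fun v hr => absurd hr h), Nat.card_fun,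
      Nat.card_fin]

end Pool.Agent.H854.Z
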